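import Mathlib
import Pool.Agent.Lib.helper4.Energy

set_option autoImplicit false

namespace Pool.Agent.Results.MP_51d21a_co.No

open Matrix Finset Pool.Agent.Lib.helper4.Energy

open Classical in
/-- sum of the absolute values of the adjacency eigenvalues, with multiplicity. -/
noncomputable def energy {V : Type} [Fintype V] (G : SimpleGraph V) : ℝ :=
  ((G.adjMatrix ℝ).charpoly.roots.map fun x => |x|).sum

theorem result {V : Type} [Fintype V] (G : SimpleGraph V) (e : Sym2 V) (he : e ∈ G.edgeSet) :
    energy (G.deleteEdges {e}) ≠ energy G + 2 := by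
  classical
  have hE : ∀ H : SimpleGraph V, ∃ h : (H.adjMatrix ℝ).IsHermitian,
      energy H = ∑ i, |h.eigenvalues i| := by
    intro H
    have h : (H.adjMatrix ℝ).IsHermitian := isHermitian_iff_isSymm.mpr H.isSymm_adjMatrix
    refine ⟨h, ?_⟩
    have := h.roots_charpoly_eq_eigenvalues
    unfold energy
    rw [this]
    simp [Multiset.map_map]
  induction e with
  | _ u v =>
  have huv : G.Adj u v := he
  obtain ⟨hA, eA⟩ := hE G
  obtain ⟨hB, eB⟩ := hE (G.deleteEdges {s(u, v)})
  rw [eA, eB]
  intro h
  obtain ⟨Q, q1, q2, q3⟩ := exists_trace_eq hB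
  generalize ∑ i, |hB.eigenvalues i| = β at h q3
  generalize hB' : @SimpleGraph.adjMatrix ℝ V (G.deleteEdges {s(u, v)})
    (fun _ _ => Classical.propDecidable _) _ _ = B at q3
  have hAB : G.adjMatrix ℝ = B + single u v 1 + single v u 1 := by
    ext a b
    simp only [← hB', SimpleGraph.adjMatrix_apply, Matrix.add_apply, SimpleGraph.deleteEdges_adj,
      Set.mem_singleton_iff, Sym2.eq_iff, single_apply]
    have := huv.ne
    by_cases h1 : u = a ∧ v = b
    · obtain ⟨rfl, rfl⟩ := h1
      simp [huv, this, this.symm]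
    · by_cases h2 : v = a ∧ u = b
      · obtain ⟨rfl, rfl⟩ := h2
        simp [huv.symm, this, this.symm]
      · have h3 : ¬ (a = u ∧ b = v ∨ a = v ∧ b = u) := by
          rintro (⟨rfl, rfl⟩ | ⟨rfl, rfl⟩)
          · exact h1 ⟨rfl, rfl⟩
          · exact h2 ⟨rfl, rfl⟩
        simp [h1, h2, h3]
  have t1 : (Q * G.adjMatrix ℝ).trace = β + Q v u + Q u v := by
    rw [hAB, Matrix.mul_add, Matrix.mul_add, trace_add, trace_add, q3, trace_mul_single,
      trace_mul_single]
    simp
  have t2 := trace_le hA q1
  have a1 := abs_le.mp (abs_le_one q1 u v)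
  have a2 := abs_le.mp (abs_le_one q1 v u)
  have a3 : Q u v = -1 := by linarith
  have a4 : ∀ w, w ≠ v → Q u w = 0 := by
    intro w hw
    have h1 := congrFun (congrFun q2 u) u
    simp only [mul_apply, transpose_apply, one_apply_eq] at h1
    have h2 := sum_le_sum_of_subset_of_nonneg (f := fun k => Q u k * Q u k)
      (subset_univ {w, v}) (fun k _ _ => mul_self_nonneg _)
    rw [h1, sum_pair hw, a3] at h2
    exact mul_self_eq_zero.mp (le_antisymm (by linarith) (mul_self_nonneg _))
  let R : Matrix V V ℝ := diagonal fun i => if i = u then -1 else 1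
  have r1 : (R * Q)ᵀ * (R * Q) = 1 := by
    have : R * R = 1 := by
      rw [diagonal_mul_diagonal, ← diagonal_one]
      congr 1; ext i; split_ifs <;> simp
    rw [transpose_mul, diagonal_transpose]
    calc _ = Qᵀ * (R * R) * Q := by simp only [Matrix.mul_assoc, R]
      _ = 1 := by rw [this, Matrix.mul_one, q1]
  have t3 := trace_le hA r1
  have t4 : (R * Q * G.adjMatrix ℝ).trace = (Q * G.adjMatrix ℝ).trace + 2 := by
    have h1 : (Q * G.adjMatrix ℝ) u u = -1 := by
      rw [mul_apply, sum_eq_single v (fun w _ hw => by rw [a4 w hw, zero_mul]) (by simp), a3]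
      simp [huv.symm]
    rw [Matrix.mul_assoc, trace, trace, ← sub_eq_iff_eq_add', ← sum_sub_distrib,
      sum_eq_single u (fun w _ hw => by simp [R, diagonal_mul, hw]) (by simp)]
    simp only [diag_apply, R, diagonal_mul, if_true, h1]
    norm_num
  linarith

end Pool.Agent.Results.MP_51d21a_co.No
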